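import Pool.Agent.H81.CP.Num
import Pool.Agent.H81.RE.Close

/-!
# Closing up: the constant `23 / 10`
-/

set_option autoImplicit false

namespace Pool.Agent.H81.CP

open Finset Pool.Agent.H81.RD Pool.Agent.H81.RE Pool.Agent.H62.CP

variable {V : Type}

theorem fam_singleton [DecidableEq V] (s : V → V → ℕ) (B : Finset V) :
    Fam s B (fun _ => 0) (fun x => {x}) := by
  refine ⟨fun x _ => singleton_nonempty x, fun x hx => by simpa using hx, fun x _ y hy => ?_⟩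
  rw [mem_singleton] at hy
  subst hy
  exact ⟨fun _ => 0, 0, W.refl, fun _ => le_rfl⟩

theorem mis_singleton [DecidableEq V] (B : Finset V) :
    mis B (fun x => {x}) = (B.card : ℝ) * ((B.card : ℝ) - 1) := by
  unfold mis
  have h : ∀ x ∈ B, ((B \ {x}).card : ℝ) = (B.card : ℝ) - 1 := by
    intro x hx
    have h1 : 1 ≤ B.card := card_pos.mpr ⟨x, hx⟩
    rw [card_sdiff_of_subset (by simpa using hx), card_singleton, Nat.cast_sub h1, Nat.cast_one]
  rw [sum_congr rfl h, sum_const, nsmul_eq_mul]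

/-- **Closed walks exist.** -/
theorem exists_closed [DecidableEq V] {s : V → V → ℕ} (hs0 : ∀ u, s u u = 0) (B : Finset V)
    (hB2 : 2 ≤ B.card)
    (hB : ∀ u ∈ B, (23 / 10 : ℝ) * ((B.card : ℝ) - 1) ≤ ∑ y ∈ B, (s u y : ℝ)) :
    ∃ (v : V) (N : ℕ → ℕ) (L : ℕ), 0 < L ∧ W s v N L v ∧ ∀ T : ℕ, N T ≤ T := by
  refine minimal_ind hs0 ?_ _ B rfl hB2 hB
  clear hB2 hB B
  intro B hB2 hB hexit
  by_contra hcon
  push Not at hcon
  have hBne : B.Nonempty := card_pos.mp (by omega)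
  obtain ⟨b0, hb0⟩ := hBne
  -- the exit vertices
  have hf : ∃ f : Finset V → V, ∀ R : Finset V, R.Nonempty → R ⊆ B →
      f R ∈ R ∧ (23 / 10 : ℝ) * ((B \ R).card : ℝ) ≤ ∑ y ∈ B \ R, (s (f R) y : ℝ) := by
    have h1 : ∀ R : Finset V, ∃ u : V, R.Nonempty → R ⊆ B →
        u ∈ R ∧ (23 / 10 : ℝ) * ((B \ R).card : ℝ) ≤ ∑ y ∈ B \ R, (s u y : ℝ) := by
      intro R
      by_cases h2 : R.Nonempty ∧ R ⊆ B
      · by_cases h3 : R = B
        · obtain ⟨u, hu⟩ := h2.1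
          refine ⟨u, fun _ _ => ⟨hu, ?_⟩⟩
          rw [h3]
          simp
        · obtain ⟨u, hu, h4⟩ := hexit R h2.2 h2.1 h3
          exact ⟨u, fun _ _ => ⟨hu, h4⟩⟩
      · exact ⟨b0, fun h3 h4 => absurd ⟨h3, h4⟩ h2⟩
    choose f hf using h1
    exact ⟨f, hf⟩
  obtain ⟨f, hf⟩ := hf
  -- the number of thresholds
  obtain ⟨K, hK200, hK⟩ : ∃ K : ℕ, 200 ≤ K ∧ ∀ u ∈ B, ∀ y ∈ B, s u y ≤ K := by
    refine ⟨200 + ∑ u ∈ B, ∑ y ∈ B, s u y, by omega, fun u hu y hy => ?_⟩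
    have h1 : s u y ≤ ∑ u ∈ B, ∑ y ∈ B, s u y := by
      refine le_trans ?_ (single_le_sum (f := fun u => ∑ y ∈ B, s u y)
        (fun u _ => Nat.zero_le _) hu)
      exact single_le_sum (f := fun y => s u y) (fun y _ => Nat.zero_le _) hy
    omega
  have hKr : (200 : ℝ) ≤ K := by exact_mod_cast hK200
  have hn : (2 : ℝ) ≤ B.card := by exact_mod_cast hB2
  have hn0 : 0 < (B.card : ℝ) * ((B.card : ℝ) - 1) := mul_pos (by linarith) (by linarith)
  obtain ⟨b, b', R, R', hb, hR, hR', hmis⟩ := run (s := s) (B := B) (f := f) (K := K)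
    (c := 23 / 10) (by norm_num) (by linarith) (fun R h2 h3 => (hf R h2 h3).1)
    (fun R h2 h3 y hy => hK _ (h3 (hf R h2 h3).1) y hy) (fun R h2 h3 => (hf R h2 h3).2) K
    (fun _ => 0) (fun _ => 0) (fun x => {x}) (fun x => {x}) (fun T => Nat.zero_le _)
    (fam_singleton s B) (fam_singleton s B)
  have hZ := Z_gt hK200
  simp only [add_zero] at hmis
  rw [mis_singleton] at hmis
  have hpair := pair_count B R R' (fun x hx => hR.sub x hx) (fun x hx => hR'.sub x hx) (by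
    intro x hx y hy hxy h2 h3
    obtain ⟨N1, M1, hW1, hN1⟩ := hR.reach x hx y h2
    obtain ⟨N2, M2, hW2, hN2⟩ := hR'.reach y hy x h3
    obtain ⟨T, hT⟩ := hcon x _ (M1 + M2) (by
      by_contra h4
      exact hxy (hW1.eq_of_zero (by omega))) (hW1.trans hW2)
    have h7 := hN1 T
    have h8 := hN2 T
    have h9 := hb T
    omega)
  rw [sum_add_distrib] at hpair
  change (B.card : ℝ) * ((B.card : ℝ) - 1) ≤ mis B R + mis B R' at hpair
  have h1 : ((B.card : ℝ) * ((B.card : ℝ) - 1)) * Z K (23 / 10) K (fun _ => 0) ≤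
      (mis B R + mis B R') * Z K (23 / 10) K (fun _ => 0) :=
    mul_le_mul_of_nonneg_right hpair (by linarith)
  have h2 : ((B.card : ℝ) * ((B.card : ℝ) - 1)) * 2 <
      ((B.card : ℝ) * ((B.card : ℝ) - 1)) * Z K (23 / 10) K (fun _ => 0) :=
    mul_lt_mul_of_pos_left hZ hn0
  linarith

end Pool.Agent.H81.CP
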