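import Pool.Agent.H81.CP.Low
import Pool.Agent.H81.RE.Ballot

/-!
# The numbers `G K j n 0` by the ballot count
-/

set_option autoImplicit false

namespace Pool.Agent.H81.CP

open Finset Pool.Agent.H62.CP Pool.Agent.H81.RE

/-- the counts of a sequence of the thresholds `ω i + j + 1` -/
def cnt {n k : ℕ} (j : ℕ) (ω : Fin n → Fin k) (T : ℕ) : ℕ :=
  ((univ : Finset (Fin n)).filter fun i => (ω i : ℕ) + j + 1 < T).card

theorem cnt_succ {n k : ℕ} (j : ℕ) (ω : Fin (n + 1) → Fin k) (T : ℕ) :
    cnt j ω T = (if (ω 0 : ℕ) + j + 1 < T then 1 else 0) + cnt j (fun i => ω i.succ) T := by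
  unfold cnt
  rw [Fin.card_filter_univ_succ]
  split_ifs <;> simp [add_comm]

open Classical in
theorem G_eq (k j : ℕ) (n : ℕ) : ∀ a : ℕ → ℕ,
    G (k + j + 1) j n a = (((univ : Finset (Fin n → Fin k)).filter fun ω =>
      okk j (fun T => a T + cnt j ω T)).card : ℝ) := by
  induction n with
  | zero =>
    intro a
    have h1 : ∀ ω : Fin 0 → Fin k, (fun T => a T + cnt j ω T) = a := by
      intro ω
      funext T
      simp [cnt]
    unfold G
    simp only [h1]
    by_cases h : okk j a
    · rw [if_pos h, filter_true_of_mem fun _ _ => h, card_univ, Fintype.card_fun,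
        Fintype.card_fin, Fintype.card_fin, pow_zero, Nat.cast_one]
    · rw [if_neg h, filter_false_of_mem fun _ _ => h, card_empty, Nat.cast_zero]
  | succ n ih =>
    intro a
    have h1 : (((univ : Finset (Fin (n + 1) → Fin k)).filter fun ω =>
        okk j (fun T => a T + cnt j ω T)).card : ℝ) =
        ∑ τ : Fin k, (((univ : Finset (Fin n → Fin k)).filter fun ω =>
          okk j (fun T => use a (τ + j + 1) T + cnt j ω T)).card : ℝ) := by
      simp only [card_filter, Nat.cast_sum]
      rw [← Fintype.sum_prod_type']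
      refine (Fintype.sum_equiv (Fin.consEquiv (fun _ => Fin k)) _ _ fun p => ?_).symm
      have h2 : (fun T => a T + cnt j (Fin.cons (α := fun _ => Fin k) p.1 p.2) T) =
          fun T => use a (p.1 + j + 1) T + cnt j p.2 T := by
        funext T
        rw [cnt_succ, Fin.cons_zero]
        simp only [Fin.cons_succ]
        unfold use
        ring
      have h3 : (Fin.consEquiv fun _ : Fin (n + 1) => Fin k) p =
          Fin.cons (α := fun _ => Fin k) p.1 p.2 := rfl
      rw [h3, h2]
    rw [h1]
    unfold G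
    rw [sum_congr rfl fun τ _ => ih _]
    rw [sum_Ico_eq_sum_range, show k + j + 1 - (j + 1) = k by omega,
      ← Fin.sum_univ_eq_sum_range (fun i => (((univ : Finset (Fin n → Fin k)).filter fun ω =>
          okk j (fun T => use a (j + 1 + i) T + cnt j ω T)).card : ℝ)) k]
    refine sum_congr rfl fun τ _ => ?_
    rw [show j + 1 + (τ : ℕ) = τ + j + 1 by omega]

/-- The ballot count. -/
theorem G_ge (k j n : ℕ) (hn : n ≤ k + 1) :
    ((k : ℝ) + 1 - n) * (k + 1) ^ n ≤ (k + 1) * G (k + j + 1) j n (fun _ => 0) := by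
  classical
  rw [G_eq]
  have h1 := ballot (ι := Fin n) k
  rw [Fintype.card_fin] at h1
  have h2 : ((univ : Finset (Fin n → Fin k)).filter fun ω => ∀ t : ℕ,
      ((univ : Finset (Fin n)).filter fun i => (ω i : ℕ) < t).card ≤ t).card ≤
      ((univ : Finset (Fin n → Fin k)).filter fun ω =>
        okk j (fun T => (fun _ => 0) T + cnt j ω T)).card := by
    refine card_le_card fun ω hω => ?_
    rw [mem_filter] at hω ⊢
    refine ⟨mem_univ _, fun T hT => ?_⟩
    have h3 := hω.2 (T - j - 1)
    have h4 : cnt j ω T = ((univ : Finset (Fin n)).filter fun i => (ω i : ℕ) < T - j - 1).card := by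
      unfold cnt
      congr 1
      refine filter_congr fun i _ => ?_
      omega
    rw [← h4] at h3
    simp only [zero_add]
    refine ⟨fun h5 => ?_, fun h5 => ?_⟩
    · omega
    · omega
  have h3 := h1.trans (Nat.mul_le_mul_left _ h2)
  have h4 : (((k + 1 - n : ℕ) : ℝ)) * ((k + 1 : ℕ) : ℝ) ^ n ≤ ((k + 1 : ℕ) : ℝ) *
      (((univ : Finset (Fin n → Fin k)).filter fun ω =>
        okk j (fun T => (fun _ => 0) T + cnt j ω T)).card : ℝ) := by exact_mod_cast h3
  rw [Nat.cast_sub hn] at h4
  push_cast at h4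
  exact h4

end Pool.Agent.H81.CP
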