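import Pool.Agent.H62.CP.Run

/-!
# A lower bound for the potential `Z`

`G K j n a` counts the sequences of `n` thresholds `≥ j + 1` after which there is still room for
the threshold `0` (`j = 1`), resp. (`j = 0`) the state is in stage 0.
-/

set_option autoImplicit false

namespace Pool.Agent.H81.CP

open Finset Pool.Agent.H62.CP

/-- there is room: `a T = 0` for `T ≤ j`, `a T + j < T` for `T > j` -/
def okk (j : ℕ) (a : ℕ → ℕ) : Prop :=
  ∀ T : ℕ, 0 < T → (T ≤ j → a T = 0) ∧ (j < T → a T + j < T)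

open Classical in
/-- the number of the sequences of `n` thresholds `≥ j + 1` after which there is room -/
noncomputable def G (K j : ℕ) : ℕ → (ℕ → ℕ) → ℝ
  | 0, a => if okk j a then 1 else 0
  | n + 1, a => ∑ τ ∈ Ico (j + 1) K, G K j n (use a τ)

theorem G_nonneg (K j : ℕ) : ∀ (n : ℕ) (a : ℕ → ℕ), 0 ≤ G K j n a := by
  intro n
  induction n with
  | zero =>
    intro a
    unfold G
    split_ifs <;> norm_num
  | succ n ih =>
    intro a
    unfold G
    exact sum_nonneg fun τ _ => ih _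

theorem okk_of_use {j : ℕ} {a : ℕ → ℕ} {τ : ℕ} (h : okk j (use a τ)) : okk j a := by
  intro T hT
  have h1 := h T hT
  have h2 : a T ≤ use a τ T := Nat.le_add_right _ _
  refine ⟨fun h3 => ?_, fun h3 => ?_⟩
  · have := h1.1 h3
    omega
  · have := h1.2 h3
    omega

theorem G_zero {K j : ℕ} : ∀ (n : ℕ) (a : ℕ → ℕ), ¬ okk j a → G K j n a = 0 := by
  intro n
  induction n with
  | zero =>
    intro a h
    unfold G
    rw [if_neg h]
  | succ n ih =>
    intro a h
    unfold G
    exact sum_eq_zero fun τ _ => ih _ fun h1 => h (okk_of_use h1)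

theorem okk_zero {a : ℕ → ℕ} : okk 0 a ↔ ok 0 a := by
  constructor
  · intro h T hT
    have := (h T hT).2 hT
    omega
  · intro h T hT
    refine ⟨fun h1 => by omega, fun _ => ?_⟩
    have := h T hT
    omega

theorem okk_one {a : ℕ → ℕ} (h : okk 1 a) : ok 0 a := by
  intro T hT
  have h1 := h T hT
  by_cases h2 : T ≤ 1
  · have := h1.1 h2
    omega
  · have := h1.2 (by omega)
    omega

theorem ok_use {a : ℕ → ℕ} (h : okk 1 a) : ok 1 (use a 0) := by
  intro T hT
  have h1 := (h T (by omega)).2 hT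
  unfold use
  rw [if_pos (by omega)]
  exact h1

theorem not_ok_use (a : ℕ → ℕ) : ¬ ok 0 (use a 0) := by
  intro h
  have := h 1 Nat.one_pos
  unfold use at this
  rw [if_pos Nat.one_pos] at this
  omega

theorem use_use (a : ℕ → ℕ) (τ : ℕ) : use (use a 0) τ = use (use a τ) 0 := by
  funext T
  unfold use
  omega

/-- The bound in stage 1. -/
theorem stage_one {K : ℕ} {c : ℝ} (hc : 1 ≤ c) (hcK : c < K) : ∀ (n : ℕ) (a : ℕ → ℕ),
    1 + (((K : ℝ) - 1) / (K - (c + 1) / 2) - 1) *
      ∑ m ∈ range n, G K 1 m a / (K - (c + 1) / 2) ^ m ≤ Z K c n (use a 0) := by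
  have hK1 : (1 : ℝ) < K := lt_of_le_of_lt hc hcK
  have hK1' : 1 < K := by exact_mod_cast hK1
  obtain ⟨D, hD⟩ : ∃ D, D = (K : ℝ) - (c + 1) / 2 := ⟨_, rfl⟩
  have hD0 : 0 < D := by
    rw [hD]
    linarith
  rw [← hD]
  intro n
  induction n with
  | zero =>
    intro a
    unfold Z
    simp
  | succ n ih =>
    intro a
    by_cases h : okk 1 a
    · have h1 : Z K c (n + 1) (use a 0) = (∑ τ ∈ Ico 1 K, Z K c n (use (use a 0) τ)) / D := by
        rw [hD]
        conv_lhs => unfold Z
        rw [if_neg (not_ok_use a), if_pos (ok_use h)]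
      rw [h1, le_div_iff₀ hD0, sum_eq_sum_Ico_succ_bot hK1']
      have h2 : ∀ τ ∈ Ico 2 K, 1 + (((K : ℝ) - 1) / D - 1) *
          ∑ m ∈ range n, G K 1 m (use a τ) / D ^ m ≤ Z K c n (use (use a 0) τ) := by
        intro τ _
        rw [use_use]
        exact ih _
      have h3 := sum_le_sum h2
      have h4 := one_le_Z hc hcK n (use (use a 0) 1)
      have h5 : ∑ τ ∈ Ico 2 K, (1 + (((K : ℝ) - 1) / D - 1) *
          ∑ m ∈ range n, G K 1 m (use a τ) / D ^ m) =
          ((K : ℝ) - 2) + (((K : ℝ) - 1) / D - 1) *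
            ∑ m ∈ range n, G K 1 (m + 1) a / D ^ m := by
        rw [sum_add_distrib, sum_const, Nat.card_Ico, nsmul_eq_mul, mul_one,
          Nat.cast_sub (by omega), ← mul_sum, sum_comm]
        congr 2
        refine sum_congr rfl fun m _ => ?_
        rw [← sum_div]
        conv_rhs => unfold G
      have h6 : (1 + (((K : ℝ) - 1) / D - 1) * ∑ m ∈ range (n + 1), G K 1 m a / D ^ m) * D =
          1 + (((K : ℝ) - 2) + (((K : ℝ) - 1) / D - 1) *
            ∑ m ∈ range n, G K 1 (m + 1) a / D ^ m) := by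
        have h7 : G K 1 0 a = 1 := by
          unfold G
          rw [if_pos h]
        have h8 : (∑ m ∈ range n, G K 1 (m + 1) a / D ^ (m + 1)) * D =
            ∑ m ∈ range n, G K 1 (m + 1) a / D ^ m := by
          rw [sum_mul]
          refine sum_congr rfl fun m _ => ?_
          rw [pow_succ]
          field_simp
        rw [sum_range_succ', h7, ← h8]
        field_simp
        ring
      rw [h6]
      norm_num at h3 ⊢
      linarith
    · have h1 : ∑ m ∈ range (n + 1), G K 1 m a / D ^ m = 0 :=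
        sum_eq_zero fun m _ => by rw [G_zero m a h, zero_div]
      rw [h1, mul_zero, add_zero]
      exact one_le_Z hc hcK _ _

/-- the coefficients of the second term -/
noncomputable def cc (D₀ D₁ : ℝ) : ℕ → ℝ
  | 0 => 1 / D₀
  | N + 1 => (cc D₀ D₁ N + 1 / D₁ ^ (N + 1)) / D₀

theorem cc_nonneg {D₀ D₁ : ℝ} (h0 : 0 < D₀) (h1 : 0 < D₁) : ∀ N : ℕ, 0 ≤ cc D₀ D₁ N := by
  intro N
  induction N with
  | zero =>
    unfold cc
    positivity
  | succ N ih =>
    unfold cc
    positivity

/-- The bound in stage 0. -/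
theorem stage_zero {K : ℕ} {c : ℝ} (hc : 1 ≤ c) (hcK : c < K) : ∀ (n : ℕ) (a : ℕ → ℕ),
    1 + ((K : ℝ) / (K - c / 2) - 1) * ∑ i ∈ range n, G K 0 i a / (K - c / 2) ^ i +
      (((K : ℝ) - 1) / (K - (c + 1) / 2) - 1) * ∑ N ∈ range (n - 1),
        G K 1 N a * cc (K - c / 2) (K - (c + 1) / 2) N ≤ Z K c n a := by
  have hK1 : (1 : ℝ) < K := lt_of_le_of_lt hc hcK
  have hK1' : 1 < K := by exact_mod_cast hK1
  have hst := stage_one hc hcK
  obtain ⟨D₁, hD₁⟩ : ∃ D, D = (K : ℝ) - (c + 1) / 2 := ⟨_, rfl⟩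
  obtain ⟨D₀, hD₀⟩ : ∃ D, D = (K : ℝ) - c / 2 := ⟨_, rfl⟩
  have h10 : 0 < D₁ := by
    rw [hD₁]
    linarith
  have h00 : 0 < D₀ := by
    rw [hD₀]
    linarith
  obtain ⟨β, hβ⟩ : ∃ β, β = ((K : ℝ) - 1) / D₁ - 1 := ⟨_, rfl⟩
  have hβ0 : 0 ≤ β := by
    rw [hβ, sub_nonneg, le_div_iff₀ h10, hD₁]
    linarith
  rw [← hD₀]
  rw [← hD₁] at hst ⊢
  rw [← hβ] at hst ⊢
  have hcc := cc_nonneg h00 h10
  intro n
  induction n with
  | zero =>
    intro a
    unfold Z
    simp
  | succ n ih =>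
    intro a
    by_cases h : ok 0 a
    · have h1 : Z K c (n + 1) a = (∑ τ ∈ Ico 0 K, Z K c n (use a τ)) / D₀ := by
        rw [hD₀]
        conv_lhs => unfold Z
        rw [if_pos h]
      rw [h1, le_div_iff₀ h00, sum_eq_sum_Ico_succ_bot (by omega : 0 < K)]
      have h2 := hst n a
      have h3 := sum_le_sum fun τ (_ : τ ∈ Ico (0 + 1) K) => ih (use a τ)
      have h5 : ∑ τ ∈ Ico (0 + 1) K, (1 + ((K : ℝ) / D₀ - 1) *
            ∑ i ∈ range n, G K 0 i (use a τ) / D₀ ^ i +
            β * ∑ N ∈ range (n - 1), G K 1 N (use a τ) * cc D₀ D₁ N) =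
          ((K : ℝ) - 1) + ((K : ℝ) / D₀ - 1) * ∑ i ∈ range n, G K 0 (i + 1) a / D₀ ^ i +
            β * ∑ N ∈ range (n - 1), (∑ τ ∈ Ico (0 + 1) K, G K 1 N (use a τ)) * cc D₀ D₁ N := by
        have e1 : ∑ τ ∈ Ico (0 + 1) K, ∑ i ∈ range n, G K 0 i (use a τ) / D₀ ^ i =
            ∑ i ∈ range n, G K 0 (i + 1) a / D₀ ^ i := by
          rw [sum_comm]
          refine sum_congr rfl fun m _ => ?_
          rw [← sum_div]
          conv_rhs => unfold G
        have e2 : ∑ τ ∈ Ico (0 + 1) K, ∑ N ∈ range (n - 1), G K 1 N (use a τ) * cc D₀ D₁ N =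
            ∑ N ∈ range (n - 1), (∑ τ ∈ Ico (0 + 1) K, G K 1 N (use a τ)) * cc D₀ D₁ N := by
          rw [sum_comm]
          exact sum_congr rfl fun N _ => by rw [sum_mul]
        rw [sum_add_distrib, sum_add_distrib, sum_const, Nat.card_Ico, nsmul_eq_mul, mul_one,
          Nat.cast_sub (by omega), ← mul_sum, ← mul_sum, e1, e2]
        push_cast
        ring
      rw [h5] at h3
      have h6 : ∑ N ∈ range (n - 1), G K 1 (N + 1) a * cc D₀ D₁ N ≤
          ∑ N ∈ range (n - 1), (∑ τ ∈ Ico (0 + 1) K, G K 1 N (use a τ)) * cc D₀ D₁ N := by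
        refine sum_le_sum fun N _ => mul_le_mul_of_nonneg_right ?_ (hcc N)
        conv_lhs => unfold G
        exact sum_le_sum_of_subset_of_nonneg (Ico_subset_Ico_left (by omega))
          fun _ _ _ => G_nonneg _ _ _ _
      have h7 : (1 + ((K : ℝ) / D₀ - 1) * ∑ i ∈ range (n + 1), G K 0 i a / D₀ ^ i +
          β * ∑ N ∈ range (n + 1 - 1), G K 1 N a * cc D₀ D₁ N) * D₀ =
          K + ((K : ℝ) / D₀ - 1) * ∑ i ∈ range n, G K 0 (i + 1) a / D₀ ^ i +
            β * (∑ m ∈ range n, G K 1 m a / D₁ ^ m +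
              ∑ N ∈ range (n - 1), G K 1 (N + 1) a * cc D₀ D₁ N) := by
        have h8 : G K 0 0 a = 1 := by
          unfold G
          rw [if_pos (okk_zero.mpr h)]
        have h9 : (∑ i ∈ range n, G K 0 (i + 1) a / D₀ ^ (i + 1)) * D₀ =
            ∑ i ∈ range n, G K 0 (i + 1) a / D₀ ^ i := by
          rw [sum_mul]
          refine sum_congr rfl fun m _ => ?_
          rw [pow_succ]
          field_simp
        have h10' : (∑ N ∈ range n, G K 1 N a * cc D₀ D₁ N) * D₀ =
            ∑ m ∈ range n, G K 1 m a / D₁ ^ m +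
              ∑ N ∈ range (n - 1), G K 1 (N + 1) a * cc D₀ D₁ N := by
          cases n with
          | zero => simp
          | succ n =>
            rw [sum_range_succ', sum_range_succ' (fun m => G K 1 m a / D₁ ^ m),
              Nat.add_sub_cancel, add_mul, sum_mul]
            have h11 : ∀ N ∈ range n, G K 1 (N + 1) a * cc D₀ D₁ (N + 1) * D₀ =
                G K 1 (N + 1) a / D₁ ^ (N + 1) + G K 1 (N + 1) a * cc D₀ D₁ N := by
              intro N _
              conv_lhs => unfold cc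
              field_simp
              ring
            rw [sum_congr rfl h11, sum_add_distrib]
            have h12 : G K 1 0 a * cc D₀ D₁ 0 * D₀ = G K 1 0 a / D₁ ^ 0 := by
              unfold cc
              field_simp
            rw [h12]
            ring
        rw [Nat.add_sub_cancel, sum_range_succ', h8, ← h9, ← h10']
        field_simp
        ring
      rw [h7]
      have h13 := mul_le_mul_of_nonneg_left h6 hβ0
      linarith
    · have h1 : ∑ i ∈ range (n + 1), G K 0 i a / D₀ ^ i = 0 :=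
        sum_eq_zero fun m _ => by rw [G_zero m a fun h2 => h (okk_zero.mp h2), zero_div]
      have h2 : ∑ N ∈ range (n + 1 - 1), G K 1 N a * cc D₀ D₁ N = 0 :=
        sum_eq_zero fun m _ => by rw [G_zero m a fun h2 => h (okk_one h2), zero_mul]
      rw [h1, h2, mul_zero, mul_zero, add_zero, add_zero]
      exact one_le_Z hc hcK _ _

end Pool.Agent.H81.CP
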