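import Pool.Agent.H81.CP.Count

/-!
# Numerics: `Z K 2.3 K 0 > 2` for `K ≥ 200`
-/

set_option autoImplicit false

namespace Pool.Agent.H81.CP

open Finset Pool.Agent.H62.CP

/-- Summation by parts. -/
theorem sum_parts (q K : ℝ) (hK : K ≠ 0) : ∀ n : ℕ,
    (q - 1) * ∑ i ∈ range n, (1 - (i : ℝ) / K) * q ^ i =
      q ^ n * (1 - (n : ℝ) / K) - 1 + (∑ i ∈ range n, q ^ (i + 1)) / K := by
  intro n
  induction n with
  | zero => simp
  | succ n ih =>
    rw [sum_range_succ, mul_add, ih, sum_range_succ (fun i => q ^ (i + 1))]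
    push_cast
    field_simp
    ring

theorem geom (q : ℝ) : ∀ n : ℕ, (q - 1) * ∑ i ∈ range n, q ^ (i + 1) = q * (q ^ n - 1) := by
  intro n
  induction n with
  | zero => simp
  | succ n ih =>
    rw [sum_range_succ, mul_add, ih]
    ring

theorem exp_bound : (3.1566 : ℝ) ≤ Real.exp 1.15 := by
  have h1 : Real.exp 1.15 = Real.exp 1 * Real.exp 0.15 := by
    rw [← Real.exp_add]
    norm_num
  have h2 := Real.exp_one_gt_d9
  have h3 := Real.quadratic_le_exp_of_nonneg (x := 0.15) (by norm_num)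
  rw [h1]
  have h4 : (1.16125 : ℝ) ≤ Real.exp 0.15 := by
    norm_num at h3 ⊢
    linarith
  calc (3.1566 : ℝ) ≤ 2.7182818283 * 1.16125 := by norm_num
    _ ≤ Real.exp 1 * Real.exp 0.15 := mul_le_mul h2.le h4 (by norm_num) (Real.exp_pos _).le

/-- The first term. -/
theorem first {K : ℕ} (hK : 200 ≤ K) :
    1.8753 ≤ 1 + ((K : ℝ) / (K - 23 / 10 / 2) - 1) *
      ∑ i ∈ range K, G K 0 i (fun _ => 0) / (K - 23 / 10 / 2) ^ i := by
  have hKr : (200 : ℝ) ≤ K := by exact_mod_cast hK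
  have hK0 : (K : ℝ) ≠ 0 := by positivity
  obtain ⟨D, hD⟩ : ∃ D, D = (K : ℝ) - 23 / 10 / 2 := ⟨_, rfl⟩
  rw [← hD]
  have hD0 : 0 < D := by
    rw [hD]
    linarith
  obtain ⟨q, hq⟩ : ∃ q, q = (K : ℝ) / D := ⟨_, rfl⟩
  rw [← hq]
  have hq1 : q - 1 = 1.15 / D := by
    rw [hq, div_sub_one hD0.ne', hD]
    congr 1
    norm_num
  have hq0 : 0 < q - 1 := by
    rw [hq1]
    positivity
  have h1 : ∀ i ∈ range K, (1 - (i : ℝ) / K) * q ^ i ≤ G K 0 i (fun _ => 0) / D ^ i := by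
    intro i hi
    have hi' := mem_range.mp hi
    obtain ⟨k, rfl⟩ : ∃ k, K = k + 0 + 1 := ⟨K - 1, by omega⟩
    have h2 := G_ge k 0 i (by omega)
    rw [le_div_iff₀ (by positivity), hq]
    have h3 : (1 - (i : ℝ) / ((k + 0 + 1 : ℕ) : ℝ)) * (((k + 0 + 1 : ℕ) : ℝ) / D) ^ i * D ^ i =
        ((k : ℝ) + 1 - i) * (k + 1) ^ i / (k + 1) := by
      rw [div_pow]
      push_cast
      have h4 : (k : ℝ) + 1 ≠ 0 := by positivity
      field_simp
      ring
    rw [h3, div_le_iff₀ (by positivity)]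
    linarith
  have h2 := mul_le_mul_of_nonneg_left (sum_le_sum h1) hq0.le
  rw [sum_parts q K hK0 K] at h2
  have h3 := geom q K
  have h4 : (∑ i ∈ range K, q ^ (i + 1)) / (K : ℝ) = (q ^ K - 1) / 1.15 := by
    have h5 : (q - 1) * K = 1.15 * q := by
      rw [hq1, hq]
      ring
    have h6 : q ≠ 0 := by
      rw [hq]
      positivity
    rw [div_eq_div_iff hK0 (by norm_num)]
    have h7 : (∑ i ∈ range K, q ^ (i + 1)) * (1.15 * q) = (q * (q ^ K - 1)) * K := by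
      rw [← h5, ← h3]
      ring
    have h8 : ((∑ i ∈ range K, q ^ (i + 1)) * 1.15) * q = ((q ^ K - 1) * K) * q := by
      linarith
    exact mul_right_cancel₀ h6 h8
  have h5 : Real.exp 1.15 ≤ q ^ K := by
    have h6 : D / K ≤ Real.exp (-(1.15 / K)) := by
      have h7 := Real.one_sub_le_exp_neg (1.15 / (K : ℝ))
      refine le_trans (le_of_eq ?_) h7
      rw [hD]
      field_simp
      ring
    have h8 : (D / K) ^ K ≤ Real.exp (-1.15) := by
      refine (pow_le_pow_left₀ (by positivity) h6 K).trans (le_of_eq ?_)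
      rw [← Real.exp_nat_mul]
      congr 1
      field_simp
    have h9 : q ^ K * (D / K) ^ K = 1 := by
      rw [← mul_pow, hq]
      have : (K : ℝ) / D * (D / K) = 1 := by field_simp
      rw [this, one_pow]
    have h10 : Real.exp 1.15 * Real.exp (-1.15) = 1 := by
      rw [← Real.exp_add]
      norm_num
    have h11 := Real.exp_pos (-1.15)
    have h12 : 0 < q ^ K := by
      rw [hq]
      positivity
    have h13 : Real.exp 1.15 * Real.exp (-1.15) ≤ q ^ K * Real.exp (-1.15) := by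
      rw [h10, ← h9]
      exact mul_le_mul_of_nonneg_left h8 h12.le
    exact le_of_mul_le_mul_right h13 h11
  have h6 := exp_bound
  rw [h4, div_self hK0] at h2
  have h7 : (1.8753 : ℝ) ≤ (q ^ K - 1) / 1.15 := by
    rw [le_div_iff₀ (by norm_num)]
    norm_num
    norm_num at h6 h5
    linarith
  linarith

theorem cc_ge' {K D₀ D₁ : ℝ} (hK : 0 < K) (h0 : 0 < D₀) (h1 : 0 < D₁)
    (hr : 1 + 1 / (2 * K) ≤ D₀ / D₁) : ∀ N : ℕ,
    ((N : ℝ) + 1) * (1 + N / (4 * K)) ≤ cc D₀ D₁ N * D₀ ^ (N + 1) := by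
  intro N
  induction N with
  | zero =>
    unfold cc
    have : 1 / D₀ * D₀ ^ (0 + 1) = 1 := by
      rw [zero_add, pow_one]
      field_simp
    rw [this]
    simp
  | succ N ih =>
    have h2 : cc D₀ D₁ (N + 1) * D₀ ^ (N + 1 + 1) =
        cc D₀ D₁ N * D₀ ^ (N + 1) + (D₀ / D₁) ^ (N + 1) := by
      conv_lhs => unfold cc
      rw [div_pow, pow_succ D₀ (N + 1)]
      field_simp
    rw [h2]
    have h3 := one_add_mul_le_pow (a := 1 / (2 * K)) (by
      have : (0 : ℝ) < 1 / (2 * K) := by positivity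
      linarith) (N + 1)
    have h4 := pow_le_pow_left₀ (by positivity) hr (N + 1)
    have h5 : ((N + 1 : ℕ) + 1 : ℝ) * (1 + (N + 1 : ℕ) / (4 * K)) =
        ((N : ℝ) + 1) * (1 + N / (4 * K)) + (1 + ((N + 1 : ℕ) : ℝ) * (1 / (2 * K))) := by
      push_cast
      field_simp
      ring
    rw [h5]
    linarith

theorem cc_ge {K : ℝ} (hK : 200 ≤ K) (N : ℕ) :
    ((N : ℝ) + 1) * (1 + N / (4 * K)) ≤
      cc (K - 23 / 10 / 2) (K - (23 / 10 + 1) / 2) N * (K - 23 / 10 / 2) ^ (N + 1) := by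
  have h0 : (0 : ℝ) < K - 23 / 10 / 2 := by linarith
  have h1 : (0 : ℝ) < K - (23 / 10 + 1) / 2 := by linarith
  refine cc_ge' (by linarith) h0 h1 ?_ N
  rw [le_div_iff₀ h1]
  have : 1 / (2 * K) * K = 1 / 2 := by
    have : K ≠ 0 := by positivity
    field_simp
  nlinarith [show 0 < 1 / (2 * K) by positivity]

theorem sum_a (k : ℝ) : ∀ n : ℕ, ∑ N ∈ range n, (k - N) * ((N : ℝ) + 1) =
    k * n * (n + 1) / 2 - (n - 1) * n * (n + 1) / 3 := by
  intro n
  induction n with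
  | zero => simp
  | succ n ih =>
    rw [sum_range_succ, ih]
    push_cast
    ring

theorem sum_b (k : ℝ) : ∀ n : ℕ, ∑ N ∈ range n, (k - N) * ((N : ℝ) + 1) * N =
    k * (n - 1) * n * (n + 1) / 3 - (n - 1) * n * (n + 1) * (3 * n - 2) / 12 := by
  intro n
  induction n with
  | zero => simp
  | succ n ih =>
    rw [sum_range_succ, ih]
    push_cast
    ring

/-- The second term. -/
theorem second {K : ℕ} (hK : 200 ≤ K) :
    0.1298 ≤ (((K : ℝ) - 1) / (K - (23 / 10 + 1) / 2) - 1) * ∑ N ∈ range (K - 1),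
        G K 1 N (fun _ => 0) * cc (K - 23 / 10 / 2) (K - (23 / 10 + 1) / 2) N := by
  have hKr : (200 : ℝ) ≤ K := by exact_mod_cast hK
  have hcc := cc_ge hKr
  have h0 : (0 : ℝ) < (K : ℝ) - 23 / 10 / 2 := by linarith
  have h1 : (0 : ℝ) < (K : ℝ) - (23 / 10 + 1) / 2 := by linarith
  have hβ : 0.65 / (K : ℝ) ≤ ((K : ℝ) - 1) / (K - (23 / 10 + 1) / 2) - 1 := by
    rw [div_sub_one h1.ne', div_le_div_iff₀ (by linarith) h1]
    nlinarith
  obtain ⟨k, hk⟩ : ∃ k, K = k + 1 + 1 := ⟨K - 2, by omega⟩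
  have hkr : (K : ℝ) = k + 1 + 1 := by
    rw [hk]
    push_cast
    ring
  have hterm : ∀ N ∈ range (K - 1), (((K : ℝ) - 1) - N) * ((N : ℝ) + 1) * (1 + 0.4 * N / K) /
      (((K : ℝ) - 1) * K) ≤
      G K 1 N (fun _ => 0) * cc (K - 23 / 10 / 2) (K - (23 / 10 + 1) / 2) N := by
    intro N hN
    have hN' := mem_range.mp hN
    have hNr : (N : ℝ) ≤ (K : ℝ) - 1 := by
      have : N ≤ K - 1 := hN'.le
      have h2 : (N : ℝ) ≤ ((K - 1 : ℕ) : ℝ) := by exact_mod_cast this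
      rw [Nat.cast_sub (by omega)] at h2
      simpa using h2
    have hG : (((K : ℝ) - 1) - N) * ((K : ℝ) - 1) ^ N ≤ ((K : ℝ) - 1) * G K 1 N (fun _ => 0) := by
      have h2 := G_ge k 1 N (by omega)
      rw [← hk] at h2
      have h3 : (K : ℝ) - 1 = k + 1 := by
        rw [hkr]
        ring
      rw [h3]
      exact h2
    have hc := hcc N
    obtain ⟨g, hg⟩ : ∃ g, g = G K 1 N (fun _ => 0) := ⟨_, rfl⟩
    obtain ⟨z, hz⟩ : ∃ z, z = cc ((K : ℝ) - 23 / 10 / 2) (K - (23 / 10 + 1) / 2) N := ⟨_, rfl⟩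
    rw [← hg] at hG ⊢
    rw [← hz] at hc ⊢
    have hpow : (1 + 0.15 * N / (K : ℝ)) * ((K : ℝ) - 23 / 10 / 2) ^ N ≤ ((K : ℝ) - 1) ^ N := by
      have h2 : 1 + 0.15 / (K : ℝ) ≤ ((K : ℝ) - 1) / (K - 23 / 10 / 2) := by
        rw [le_div_iff₀ h0]
        have h3 : 0.15 / (K : ℝ) * K = 0.15 := by field_simp
        have h4 : 0 < 0.15 / (K : ℝ) := by positivity
        norm_num at h3 h4 ⊢
        nlinarith
      have h3 := one_add_mul_le_pow (a := 0.15 / (K : ℝ)) (by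
        have : (0 : ℝ) < 0.15 / K := by positivity
        linarith) N
      have h4 := pow_le_pow_left₀ (by positivity) h2 N
      rw [div_pow, le_div_iff₀ (by positivity)] at h4
      refine le_trans ?_ h4
      refine mul_le_mul_of_nonneg_right ?_ (by positivity)
      refine le_trans (le_of_eq ?_) h3
      ring
    have hp : 0 < ((K : ℝ) - 23 / 10 / 2) ^ N := by positivity
    have hz1 : ((N : ℝ) + 1) * (1 + N / (4 * K)) / ((K : ℝ) - 23 / 10 / 2) ^ (N + 1) ≤ z := by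
      rw [div_le_iff₀ (by positivity)]
      exact hc
    have hg1 : (((K : ℝ) - 1) - N) * ((K : ℝ) - 1) ^ N / ((K : ℝ) - 1) ≤ g := by
      rw [div_le_iff₀ (by linarith)]
      linarith
    have hg2 : (((K : ℝ) - 1) - N) * ((1 + 0.15 * N / (K : ℝ)) * ((K : ℝ) - 23 / 10 / 2) ^ N) /
        ((K : ℝ) - 1) ≤ g := by
      refine le_trans ?_ hg1
      refine div_le_div_of_nonneg_right ?_ (by linarith)
      exact mul_le_mul_of_nonneg_left hpow (by linarith)
    have hz0 : 0 ≤ ((N : ℝ) + 1) * (1 + N / (4 * K)) / ((K : ℝ) - 23 / 10 / 2) ^ (N + 1) := by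
      positivity
    have hg0 : 0 ≤ (((K : ℝ) - 1) - N) * ((1 + 0.15 * N / (K : ℝ)) *
        ((K : ℝ) - 23 / 10 / 2) ^ N) / ((K : ℝ) - 1) := by
      have : (0 : ℝ) ≤ ((K : ℝ) - 1) - N := by linarith
      have : (0 : ℝ) < (K : ℝ) - 1 := by linarith
      positivity
    refine le_trans ?_ (mul_le_mul hg2 hz1 hz0 (hg0.trans hg2))
    have e : (((K : ℝ) - 1) - N) * ((1 + 0.15 * N / (K : ℝ)) *
        ((K : ℝ) - 23 / 10 / 2) ^ N) / ((K : ℝ) - 1) *
        (((N : ℝ) + 1) * (1 + N / (4 * K)) / ((K : ℝ) - 23 / 10 / 2) ^ (N + 1)) =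
        (((K : ℝ) - 1) - N) * ((N : ℝ) + 1) * ((1 + 0.15 * N / (K : ℝ)) * (1 + N / (4 * K))) /
          (((K : ℝ) - 1) * (K - 23 / 10 / 2)) := by
      rw [pow_succ]
      have : (K : ℝ) - 1 ≠ 0 := by linarith
      generalize hDD : (K : ℝ) - 23 / 10 / 2 = D at h0
      field_simp
    rw [e]
    have h2 : 1 + 0.4 * (N : ℝ) / K ≤ (1 + 0.15 * N / (K : ℝ)) * (1 + N / (4 * K)) := by
      have h3 : (1 + 0.15 * N / (K : ℝ)) * (1 + N / (4 * K)) =
          1 + 0.4 * (N : ℝ) / K + 0.15 * N / K * (N / (4 * K)) := by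
        field_simp
        ring
      rw [h3]
      have : 0 ≤ 0.15 * (N : ℝ) / K * (N / (4 * K)) := by positivity
      linarith
    have h3 : (0 : ℝ) ≤ (((K : ℝ) - 1) - N) * ((N : ℝ) + 1) :=
      mul_nonneg (by linarith) (by positivity)
    have h4 := mul_le_mul_of_nonneg_left h2 h3
    have h5 : (0 : ℝ) ≤ (((K : ℝ) - 1) - N) * ((N : ℝ) + 1) *
        ((1 + 0.15 * N / (K : ℝ)) * (1 + N / (4 * K))) := mul_nonneg h3 (by positivity)
    have h6 : (0 : ℝ) < (K : ℝ) - 1 := by linarith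
    refine (div_le_div_of_nonneg_right h4 (by positivity)).trans ?_
    refine div_le_div_of_nonneg_left h5 (by positivity) ?_
    exact mul_le_mul_of_nonneg_left (by linarith) h6.le
  have hsum := sum_le_sum hterm
  have hcl : ∑ N ∈ range (K - 1), (((K : ℝ) - 1) - N) * ((N : ℝ) + 1) * (1 + 0.4 * N / K) /
      (((K : ℝ) - 1) * K) = (K + 1) / 6 + 0.4 * (K - 2) * (K + 1) / (12 * K) := by
    have h2 : ∀ N ∈ range (K - 1), (((K : ℝ) - 1) - N) * ((N : ℝ) + 1) * (1 + 0.4 * N / K) /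
        (((K : ℝ) - 1) * K) = (1 / (((K : ℝ) - 1) * K)) * ((((K : ℝ) - 1) - N) * ((N : ℝ) + 1)) +
          (0.4 / (((K : ℝ) - 1) * K * K)) * ((((K : ℝ) - 1) - N) * ((N : ℝ) + 1) * N) := by
      intro N _
      have : (K : ℝ) - 1 ≠ 0 := by linarith
      field_simp
    rw [sum_congr rfl h2, sum_add_distrib, ← mul_sum, ← mul_sum, sum_a, sum_b,
      Nat.cast_sub (by omega)]
    push_cast
    have : (K : ℝ) - 1 ≠ 0 := by linarith
    field_simp
    ring
  rw [hcl] at hsum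
  have h2 : 0 ≤ ((K : ℝ) + 1) / 6 + 0.4 * (K - 2) * (K + 1) / (12 * K) := by
    have : (0 : ℝ) ≤ (K : ℝ) - 2 := by linarith
    positivity
  refine le_trans ?_ (mul_le_mul hβ hsum h2 (le_trans (by positivity) hβ))
  have h3 : 0.65 / (K : ℝ) * (((K : ℝ) + 1) / 6 + 0.4 * (K - 2) * (K + 1) / (12 * K)) =
      0.65 * (K * (K + 1) * 2 + 0.4 * (K - 2) * (K + 1)) / (12 * K ^ 2) := by
    field_simp
    ring
  rw [h3, le_div_iff₀ (by positivity)]
  norm_num
  nlinarith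

/-- **The potential is greater than `2`.** -/
theorem Z_gt {K : ℕ} (hK : 200 ≤ K) : 2 < Z K (23 / 10) K (fun _ => 0) := by
  have hKr : (200 : ℝ) ≤ K := by exact_mod_cast hK
  have h1 := stage_zero (K := K) (c := 23 / 10) (by norm_num) (by linarith) K (fun _ => 0)
  have h2 := first hK
  have h3 := second hK
  norm_num at h1 h2 h3 ⊢
  linarith

end Pool.Agent.H81.CP
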